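import Pool.Agent.NNr.R11_1_8_9.D0
import Pool.Agent.NNr.R11_1_8_9.D1
import Pool.Agent.NNr.R11_1_8_9.D2
import Pool.Agent.NNe.Slots

set_option linter.all false
set_option maxRecDepth 1000000
namespace Pool.Agent.NNr.R11_1_8_9

open Pool.Agent.NNe

def wf0_0 : wfC (nat_lit 47) (nat_lit 5) C0_0 = true := by decide +kernel
def pl0_0 : plCk (nat_lit 47) (nat_lit 5) (nat_lit 11) (nat_lit 5) (nat_lit 0) (nat_lit 2) (nat_lit 9) (nat_lit 4) (nat_lit 0) nl0 CL0 = true := by decide +kernel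
def st0_0_0 : starCk (nat_lit 47) (nat_lit 5) (nat_lit 1) (nat_lit 2) (nat_lit 6) (nat_lit 0) (nat_lit 256) C0_0 = true := by decide +kernel
def sc0_0 : stCov (nat_lit 2) (nat_lit 0) (Rl.cons (nat_lit 0) (nat_lit 6) Rl.nil) C0_0 = true := by decide +kernel
def wf0_1 : wfC (nat_lit 47) (nat_lit 5) C0_1 = true := by decide +kernel
def pl0_1 : plCk (nat_lit 47) (nat_lit 5) (nat_lit 11) (nat_lit 5) (nat_lit 0) (nat_lit 2) (nat_lit 9) (nat_lit 4) (nat_lit 1) nl0 CL0 = true := by decide +kernel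
def st0_1_0 : starCk (nat_lit 47) (nat_lit 5) (nat_lit 1) (nat_lit 2) (nat_lit 10) (nat_lit 12) (nat_lit 1) C0_1 = true := by decide +kernel
def sc0_1 : stCov (nat_lit 0) (nat_lit 12) (Rl.cons (nat_lit 12) (nat_lit 10) Rl.nil) C0_1 = true := by decide +kernel
def wf0_2 : wfC (nat_lit 47) (nat_lit 5) C0_2 = true := by decide +kernel
def pl0_2 : plCk (nat_lit 47) (nat_lit 5) (nat_lit 11) (nat_lit 5) (nat_lit 0) (nat_lit 2) (nat_lit 9) (nat_lit 4) (nat_lit 2) nl0 CL0 = true := by decide +kernel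
def st0_2_0 : starCk (nat_lit 47) (nat_lit 5) (nat_lit 1) (nat_lit 2) (nat_lit 16) (nat_lit 18) (nat_lit 1) C0_2 = true := by decide +kernel
def sc0_2 : stCov (nat_lit 0) (nat_lit 18) (Rl.cons (nat_lit 18) (nat_lit 16) Rl.nil) C0_2 = true := by decide +kernel
def wf0_3 : wfC (nat_lit 47) (nat_lit 5) C0_3 = true := by decide +kernel
def pl0_3 : plCk (nat_lit 47) (nat_lit 5) (nat_lit 11) (nat_lit 5) (nat_lit 0) (nat_lit 2) (nat_lit 9) (nat_lit 4) (nat_lit 3) nl0 CL0 = true := by decide +kernel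
def st0_3_0 : starCk (nat_lit 47) (nat_lit 5) (nat_lit 1) (nat_lit 2) (nat_lit 10) (nat_lit 64) (nat_lit 256) C0_3 = true := by decide +kernel
def sc0_3 : stCov (nat_lit 2) (nat_lit 64) (Rl.cons (nat_lit 64) (nat_lit 10) Rl.nil) C0_3 = true := by decide +kernel
def wf0_4 : wfC (nat_lit 47) (nat_lit 5) C0_4 = true := by decide +kernel
def pl0_4 : plCk (nat_lit 47) (nat_lit 5) (nat_lit 11) (nat_lit 5) (nat_lit 0) (nat_lit 2) (nat_lit 9) (nat_lit 4) (nat_lit 4) nl0 CL0 = true := by decide +kernel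
def st0_4_0 : starCk (nat_lit 47) (nat_lit 5) (nat_lit 1) (nat_lit 2) (nat_lit 10) (nat_lit 10) (nat_lit 1) C0_4 = true := by decide +kernel
def sc0_4 : stCov (nat_lit 0) (nat_lit 10) (Rl.cons (nat_lit 10) (nat_lit 10) Rl.nil) C0_4 = true := by decide +kernel
def wf0_5 : wfC (nat_lit 47) (nat_lit 5) C0_5 = true := by decide +kernel
def pl0_5 : plCk (nat_lit 47) (nat_lit 5) (nat_lit 11) (nat_lit 5) (nat_lit 0) (nat_lit 2) (nat_lit 9) (nat_lit 4) (nat_lit 5) nl0 CL0 = true := by decide +kernel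
def st0_5_0 : starCk (nat_lit 47) (nat_lit 5) (nat_lit 1) (nat_lit 2) (nat_lit 70) (nat_lit 83) (nat_lit 4096) C0_5 = true := by decide +kernel
def sc0_5 : stCov (nat_lit 3) (nat_lit 83) (Rl.cons (nat_lit 83) (nat_lit 70) Rl.nil) C0_5 = true := by decide +kernel
def wf0_6 : wfC (nat_lit 47) (nat_lit 5) C0_6 = true := by decide +kernel
def pl0_6 : plCk (nat_lit 47) (nat_lit 5) (nat_lit 11) (nat_lit 5) (nat_lit 0) (nat_lit 2) (nat_lit 9) (nat_lit 4) (nat_lit 6) nl0 CL0 = true := by decide +kernel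
def st0_6_0 : starCk (nat_lit 47) (nat_lit 5) (nat_lit 1) (nat_lit 2) (nat_lit 24) (nat_lit 56) (nat_lit 16) C0_6 = true := by decide +kernel
def sc0_6 : stCov (nat_lit 1) (nat_lit 56) (Rl.cons (nat_lit 56) (nat_lit 24) Rl.nil) C0_6 = true := by decide +kernel
def wf0_7 : wfC (nat_lit 47) (nat_lit 5) C0_7 = true := by decide +kernel
def pl0_7 : plCk (nat_lit 47) (nat_lit 5) (nat_lit 11) (nat_lit 5) (nat_lit 0) (nat_lit 2) (nat_lit 9) (nat_lit 4) (nat_lit 7) nl0 CL0 = true := by decide +kernel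
def st0_7_0 : starCk (nat_lit 47) (nat_lit 5) (nat_lit 1) (nat_lit 2) (nat_lit 26) (nat_lit 58) (nat_lit 16) C0_7 = true := by decide +kernel
def sc0_7 : stCov (nat_lit 1) (nat_lit 58) (Rl.cons (nat_lit 58) (nat_lit 26) Rl.nil) C0_7 = true := by decide +kernel
def wf0_8 : wfC (nat_lit 47) (nat_lit 5) C0_8 = true := by decide +kernel
def pl0_8 : plCk (nat_lit 47) (nat_lit 5) (nat_lit 11) (nat_lit 5) (nat_lit 0) (nat_lit 2) (nat_lit 9) (nat_lit 4) (nat_lit 8) nl0 CL0 = true := by decide +kernel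
def st0_8_0 : starCk (nat_lit 47) (nat_lit 5) (nat_lit 1) (nat_lit 2) (nat_lit 2) (nat_lit 8) (nat_lit 256) C0_8 = true := by decide +kernel
def sc0_8 : stCov (nat_lit 2) (nat_lit 8) (Rl.cons (nat_lit 8) (nat_lit 2) Rl.nil) C0_8 = true := by decide +kernel
def ti0_0 : tileCk (nat_lit 47) (nat_lit 5) (nat_lit 2) (nat_lit 2) (nat_lit 106) (nat_lit 11) (nat_lit 9) ZL0_0 CL0 = true := by decide +kernel
def zl0_0 : zlOK (nat_lit 106) ZL0_0 = true := by decide +kernel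
def tc0_0 : tiCov (nat_lit 1) (nat_lit 0) ZZ0 C0_0 = true := by decide +kernel
def tc0_1 : tiCov (nat_lit 1) (nat_lit 1) ZZ0 C0_1 = true := by decide +kernel
def tc0_2 : tiCov (nat_lit 1) (nat_lit 2) ZZ0 C0_2 = true := by decide +kernel
def tc0_3 : tiCov (nat_lit 1) (nat_lit 3) ZZ0 C0_3 = true := by decide +kernel
def tc0_4 : tiCov (nat_lit 1) (nat_lit 4) ZZ0 C0_4 = true := by decide +kernel
def tc0_5 : tiCov (nat_lit 1) (nat_lit 5) ZZ0 C0_5 = true := by decide +kernel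
def tc0_6 : tiCov (nat_lit 1) (nat_lit 6) ZZ0 C0_6 = true := by decide +kernel
def tc0_7 : tiCov (nat_lit 1) (nat_lit 7) ZZ0 C0_7 = true := by decide +kernel
def tc0_8 : tiCov (nat_lit 1) (nat_lit 8) ZZ0 C0_8 = true := by decide +kernel
def wf1_0 : wfC (nat_lit 59) (nat_lit 21) C1_0 = true := by decide +kernel
def rf1_0 : rfCk (nat_lit 47) (nat_lit 5) (nat_lit 59) (nat_lit 21) (nat_lit 8) (nat_lit 262144) (nat_lit 0) TL1 CL0 CL1 = true := by decide +kernel
def st1_0_0 : starCk (nat_lit 59) (nat_lit 21) (nat_lit 1) (nat_lit 10) (nat_lit 20) (nat_lit 0) (nat_lit 256) C1_0 = true := by decide +kernel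
def sc1_0 : stCov (nat_lit 2) (nat_lit 0) (Rl.cons (nat_lit 0) (nat_lit 20) Rl.nil) C1_0 = true := by decide +kernel
def wf1_1 : wfC (nat_lit 59) (nat_lit 21) C1_1 = true := by decide +kernel
def rf1_1 : rfCk (nat_lit 47) (nat_lit 5) (nat_lit 59) (nat_lit 21) (nat_lit 8) (nat_lit 262144) (nat_lit 1) TL1 CL0 CL1 = true := by decide +kernel
def st1_1_0 : starCk (nat_lit 59) (nat_lit 21) (nat_lit 1) (nat_lit 10) (nat_lit 16) (nat_lit 44) (nat_lit 1) C1_1 = true := by decide +kernel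
def sc1_1 : stCov (nat_lit 0) (nat_lit 44) (Rl.cons (nat_lit 44) (nat_lit 16) Rl.nil) C1_1 = true := by decide +kernel
def wf1_2 : wfC (nat_lit 59) (nat_lit 21) C1_2 = true := by decide +kernel
def rf1_2 : rfCk (nat_lit 47) (nat_lit 5) (nat_lit 59) (nat_lit 21) (nat_lit 8) (nat_lit 262144) (nat_lit 2) TL1 CL0 CL1 = true := by decide +kernel
def st1_2_0 : starCk (nat_lit 59) (nat_lit 21) (nat_lit 1) (nat_lit 10) (nat_lit 24) (nat_lit 64) (nat_lit 1) C1_2 = true := by decide +kernel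
def sc1_2 : stCov (nat_lit 0) (nat_lit 64) (Rl.cons (nat_lit 64) (nat_lit 24) Rl.nil) C1_2 = true := by decide +kernel
def wf1_3 : wfC (nat_lit 59) (nat_lit 21) C1_3 = true := by decide +kernel
def rf1_3 : rfCk (nat_lit 47) (nat_lit 5) (nat_lit 59) (nat_lit 21) (nat_lit 8) (nat_lit 262144) (nat_lit 3) TL1 CL0 CL1 = true := by decide +kernel
def st1_3_0 : starCk (nat_lit 59) (nat_lit 21) (nat_lit 1) (nat_lit 10) (nat_lit 32) (nat_lit 187) (nat_lit 256) C1_3 = true := by decide +kernel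
def sc1_3 : stCov (nat_lit 2) (nat_lit 187) (Rl.cons (nat_lit 187) (nat_lit 32) Rl.nil) C1_3 = true := by decide +kernel
def wf1_4 : wfC (nat_lit 59) (nat_lit 21) C1_4 = true := by decide +kernel
def rf1_4 : rfCk (nat_lit 47) (nat_lit 5) (nat_lit 59) (nat_lit 21) (nat_lit 8) (nat_lit 262144) (nat_lit 4) TL1 CL0 CL1 = true := by decide +kernel
def st1_4_0 : starCk (nat_lit 59) (nat_lit 21) (nat_lit 1) (nat_lit 10) (nat_lit 15) (nat_lit 32) (nat_lit 1) C1_4 = true := by decide +kernel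
def sc1_4 : stCov (nat_lit 0) (nat_lit 32) (Rl.cons (nat_lit 32) (nat_lit 15) Rl.nil) C1_4 = true := by decide +kernel
def wf1_5 : wfC (nat_lit 59) (nat_lit 21) C1_5 = true := by decide +kernel
def rf1_5 : rfCk (nat_lit 47) (nat_lit 5) (nat_lit 59) (nat_lit 21) (nat_lit 8) (nat_lit 262144) (nat_lit 5) TL1 CL0 CL1 = true := by decide +kernel
def st1_5_0 : starCk (nat_lit 59) (nat_lit 21) (nat_lit 1) (nat_lit 10) (nat_lit 156) (nat_lit 184) (nat_lit 4096) C1_5 = true := by decide +kernel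
def sc1_5 : stCov (nat_lit 3) (nat_lit 184) (Rl.cons (nat_lit 184) (nat_lit 156) Rl.nil) C1_5 = true := by decide +kernel
def wf1_6 : wfC (nat_lit 59) (nat_lit 21) C1_6 = true := by decide +kernel
def rf1_6 : rfCk (nat_lit 47) (nat_lit 5) (nat_lit 59) (nat_lit 21) (nat_lit 8) (nat_lit 262144) (nat_lit 6) TL1 CL0 CL1 = true := by decide +kernel
def st1_6_0 : starCk (nat_lit 59) (nat_lit 21) (nat_lit 1) (nat_lit 10) (nat_lit 56) (nat_lit 84) (nat_lit 1) C1_6 = true := by decide +kernel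
def sc1_6 : stCov (nat_lit 0) (nat_lit 84) (Rl.cons (nat_lit 84) (nat_lit 56) Rl.nil) C1_6 = true := by decide +kernel
def wf1_7 : wfC (nat_lit 59) (nat_lit 21) C1_7 = true := by decide +kernel
def rf1_7 : rfCk (nat_lit 47) (nat_lit 5) (nat_lit 59) (nat_lit 21) (nat_lit 8) (nat_lit 262144) (nat_lit 7) TL1 CL0 CL1 = true := by decide +kernel
def st1_7_0 : starCk (nat_lit 59) (nat_lit 21) (nat_lit 1) (nat_lit 10) (nat_lit 56) (nat_lit 92) (nat_lit 1) C1_7 = true := by decide +kernel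
def sc1_7 : stCov (nat_lit 0) (nat_lit 92) (Rl.cons (nat_lit 92) (nat_lit 56) Rl.nil) C1_7 = true := by decide +kernel
def ti1_0 : tileCk (nat_lit 59) (nat_lit 21) (nat_lit 2) (nat_lit 10) (nat_lit 182) (nat_lit 11) (nat_lit 9) ZL1_0 CL1 = true := by decide +kernel
def zl1_0 : zlOK (nat_lit 182) ZL1_0 = true := by decide +kernel
def ti1_1 : tileCk (nat_lit 59) (nat_lit 21) (nat_lit 2) (nat_lit 10) (nat_lit 182) (nat_lit 11) (nat_lit 9) ZL1_1 CL1 = true := by decide +kernel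
def zl1_1 : zlOK (nat_lit 182) ZL1_1 = true := by decide +kernel
def tc1_0 : tiCov (nat_lit 1) (nat_lit 0) ZZ1 C1_0 = true := by decide +kernel
def tc1_1 : tiCov (nat_lit 1) (nat_lit 1) ZZ1 C1_1 = true := by decide +kernel
def tc1_2 : tiCov (nat_lit 1) (nat_lit 2) ZZ1 C1_2 = true := by decide +kernel
def tc1_3 : tiCov (nat_lit 1) (nat_lit 3) ZZ1 C1_3 = true := by decide +kernel
def tc1_4 : tiCov (nat_lit 1) (nat_lit 4) ZZ1 C1_4 = true := by decide +kernel
def tc1_5 : tiCov (nat_lit 1) (nat_lit 5) ZZ1 C1_5 = true := by decide +kernel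
def tc1_6 : tiCov (nat_lit 1) (nat_lit 6) ZZ1 C1_6 = true := by decide +kernel
def tc1_7 : tiCov (nat_lit 1) (nat_lit 7) ZZ1 C1_7 = true := by decide +kernel
def wf2_0 : wfC (nat_lit 39) (nat_lit 26) C2_0 = true := by decide +kernel
def rf2_0 : rfCk (nat_lit 59) (nat_lit 21) (nat_lit 39) (nat_lit 26) (nat_lit 9) (nat_lit 0) (nat_lit 0) TL2 CL1 CL2 = true := by decide +kernel
def st2_0_0 : starCk (nat_lit 39) (nat_lit 26) (nat_lit 2) (nat_lit 12) (nat_lit 8) (nat_lit 0) (nat_lit 256) C2_0 = true := by decide +kernel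
def sc2_0 : stCov (nat_lit 2) (nat_lit 0) (Rl.cons (nat_lit 0) (nat_lit 8) Rl.nil) C2_0 = true := by decide +kernel
def wf2_1 : wfC (nat_lit 39) (nat_lit 26) C2_1 = true := by decide +kernel
def rf2_1 : rfCk (nat_lit 59) (nat_lit 21) (nat_lit 39) (nat_lit 26) (nat_lit 9) (nat_lit 0) (nat_lit 1) TL2 CL1 CL2 = true := by decide +kernel
def st2_1_0 : starCk (nat_lit 39) (nat_lit 26) (nat_lit 2) (nat_lit 12) (nat_lit 7) (nat_lit 8) (nat_lit 1) C2_1 = true := by decide +kernel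
def sc2_1 : stCov (nat_lit 0) (nat_lit 8) (Rl.cons (nat_lit 8) (nat_lit 7) Rl.nil) C2_1 = true := by decide +kernel
def wf2_2 : wfC (nat_lit 39) (nat_lit 26) C2_2 = true := by decide +kernel
def rf2_2 : rfCk (nat_lit 59) (nat_lit 21) (nat_lit 39) (nat_lit 26) (nat_lit 9) (nat_lit 0) (nat_lit 2) TL2 CL1 CL2 = true := by decide +kernel
def st2_2_0 : starCk (nat_lit 39) (nat_lit 26) (nat_lit 2) (nat_lit 12) (nat_lit 20) (nat_lit 31) (nat_lit 1) C2_2 = true := by decide +kernel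
def sc2_2 : stCov (nat_lit 0) (nat_lit 31) (Rl.cons (nat_lit 31) (nat_lit 20) Rl.nil) C2_2 = true := by decide +kernel
def wf2_3 : wfC (nat_lit 39) (nat_lit 26) C2_3 = true := by decide +kernel
def rf2_3 : rfCk (nat_lit 59) (nat_lit 21) (nat_lit 39) (nat_lit 26) (nat_lit 9) (nat_lit 0) (nat_lit 3) TL2 CL1 CL2 = true := by decide +kernel
def st2_3_0 : starCk (nat_lit 39) (nat_lit 26) (nat_lit 2) (nat_lit 12) (nat_lit 12) (nat_lit 101) (nat_lit 256) C2_3 = true := by decide +kernel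
def sc2_3 : stCov (nat_lit 2) (nat_lit 101) (Rl.cons (nat_lit 101) (nat_lit 12) Rl.nil) C2_3 = true := by decide +kernel
def wf2_4 : wfC (nat_lit 39) (nat_lit 26) C2_4 = true := by decide +kernel
def rf2_4 : rfCk (nat_lit 59) (nat_lit 21) (nat_lit 39) (nat_lit 26) (nat_lit 9) (nat_lit 0) (nat_lit 4) TL2 CL1 CL2 = true := by decide +kernel
def st2_4_0 : starCk (nat_lit 39) (nat_lit 26) (nat_lit 2) (nat_lit 12) (nat_lit 4) (nat_lit 7) (nat_lit 1) C2_4 = true := by decide +kernel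
def sc2_4 : stCov (nat_lit 0) (nat_lit 7) (Rl.cons (nat_lit 7) (nat_lit 4) Rl.nil) C2_4 = true := by decide +kernel
def wf2_5 : wfC (nat_lit 39) (nat_lit 26) C2_5 = true := by decide +kernel
def rf2_5 : rfCk (nat_lit 59) (nat_lit 21) (nat_lit 39) (nat_lit 26) (nat_lit 9) (nat_lit 0) (nat_lit 5) TL2 CL1 CL2 = true := by decide +kernel
def st2_5_0 : starCk (nat_lit 39) (nat_lit 26) (nat_lit 2) (nat_lit 12) (nat_lit 60) (nat_lit 77) (nat_lit 4096) C2_5 = true := by decide +kernel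
def sc2_5 : stCov (nat_lit 3) (nat_lit 77) (Rl.cons (nat_lit 77) (nat_lit 60) Rl.nil) C2_5 = true := by decide +kernel
def wf2_6 : wfC (nat_lit 39) (nat_lit 26) C2_6 = true := by decide +kernel
def rf2_6 : rfCk (nat_lit 59) (nat_lit 21) (nat_lit 39) (nat_lit 26) (nat_lit 9) (nat_lit 0) (nat_lit 6) TL2 CL1 CL2 = true := by decide +kernel
def st2_6_0 : starCk (nat_lit 39) (nat_lit 26) (nat_lit 2) (nat_lit 12) (nat_lit 31) (nat_lit 40) (nat_lit 1) C2_6 = true := by decide +kernel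
def sc2_6 : stCov (nat_lit 0) (nat_lit 40) (Rl.cons (nat_lit 40) (nat_lit 31) Rl.nil) C2_6 = true := by decide +kernel
def wf2_7 : wfC (nat_lit 39) (nat_lit 26) C2_7 = true := by decide +kernel

end Pool.Agent.NNr.R11_1_8_9
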